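import Pool.Agent.MP_a5ded6_pr.POIS.All

set_option autoImplicit false

namespace Pool.Agent.Results.MP_a5ded6_pr.BraidPoisson

open Pool.Agent.MP_a5ded6_pr.POIS

/-- The number of braid moves of a uniform sorting network on `n+1` wires tends in law to a
Poisson variable of mean one. -/
theorem result (j : ℕ) :
    Filter.Tendsto (fun n : ℕ =>
      ((((Finset.univ : Finset (Fin ((n + 1) * n / 2) → Fin n)).filter
          (fun k => ((List.ofFn k).map
              (fun a : Fin n => Equiv.swap a.castSucc a.succ)).prod = Fin.revPerm ∧
            braids ((List.ofFn k).map (fun a : Fin n => ((a : ℕ) : ℤ))) = j)).card : ℕ) : ℝ) /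
      ((((Finset.univ : Finset (Fin ((n + 1) * n / 2) → Fin n)).filter
          (fun k => ((List.ofFn k).map
              (fun a : Fin n => Equiv.swap a.castSucc a.succ)).prod = Fin.revPerm)).card : ℕ) : ℝ))
      Filter.atTop (nhds (Real.exp (-1) / (j.factorial : ℝ))) := by
  have h := (all_poisson j).comp (Filter.tendsto_add_atTop_nat 1)
  refine h.congr (fun n => ?_)
  simp only [Function.comp]
  rw [(r4d_Link n).1, (r4d_Link n).2 j]

end Pool.Agent.Results.MP_a5ded6_pr.BraidPoisson
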