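import Pool.Agent.MP_a5ded6_pr.POIS.All2

set_option autoImplicit false

namespace Pool.Agent.Results.MP_a5ded6_pr.BraidVariance

open Pool.Agent.MP_a5ded6_pr.POIS

/-- The variance of the number of braid moves of a uniform sorting network on `n+1 ≥ 4` wires
is `(N-4)/(N-2)` with `N = (n+1)n/2`. -/
theorem result (n : ℕ) (hn : 3 ≤ n) (S : Finset (Fin ((n + 1) * n / 2) → Fin n))
    (hS : S = Finset.univ.filter (fun k => ((List.ofFn k).map
      (fun a : Fin n => Equiv.swap a.castSucc a.succ)).prod = Fin.revPerm)) :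
    (∑ k ∈ S, ((braids ((List.ofFn k).map (fun a : Fin n => ((a : ℕ) : ℤ))) : ℕ) : ℝ) ^ 2) /
        ((S.card : ℕ) : ℝ) -
      ((∑ k ∈ S, ((braids ((List.ofFn k).map (fun a : Fin n => ((a : ℕ) : ℤ))) : ℕ) : ℝ)) /
        ((S.card : ℕ) : ℝ)) ^ 2 =
      ((((n + 1) * n / 2 : ℕ) : ℝ) - 4) / ((((n + 1) * n / 2 : ℕ) : ℝ) - 2) := by
  have h := all_variance (n + 1) (by omega)
  have h1 := v5_Link2 r4d_Link n (fun x => (x : ℝ) ^ 2)
  have h2 := v5_Link2 r4d_Link n (fun x => (x : ℝ))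
  subst hS
  rw [h1, h2, (r4d_Link n).1]
  simpa [NN] using h

end Pool.Agent.Results.MP_a5ded6_pr.BraidVariance
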